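import Pool.Agent.H97R2.LPB.Props

/-!
# The nodes are separated
-/

open Polynomial Filter Topology MeasureTheory Pool.Agent.H337R2 Pool.Agent.LP

namespace Pool.Agent.LPB

namespace H858Sep

theorem rep {n i : ℕ} (hi : i < 4 * n + 1) :
    (∃ k : ℕ, k < n ∧ i = k ∧ xn n i = 15 / 16 * ((k : ℝ) + 1 / 2)) ∨
    (∃ k : ℕ, k < n ∧ i = n + k ∧ xn n i = -(15 / 16 * ((k : ℝ) + 1 / 2))) ∨
    (∃ k : ℕ, k < n ∧ i = 2 * n + k ∧ xn n i = 15 / 16 * n + 33 / 16 * ((k : ℝ) + 1 / 2)) ∨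
    (∃ k : ℕ, k < n ∧ i = 3 * n + k ∧ xn n i = -(15 / 16 * n + 33 / 16 * ((k : ℝ) + 1 / 2))) ∨
    (i = 4 * n ∧ xn n i = 0) := by
  unfold xn
  by_cases h1 : i < n
  · exact Or.inl ⟨i, h1, rfl, by rw [if_pos h1]⟩
  rw [if_neg h1]
  by_cases h2 : i < 2 * n
  · exact Or.inr (Or.inl ⟨i - n, by omega, by omega, by rw [if_pos h2]⟩)
  rw [if_neg h2]
  by_cases h3 : i < 3 * n
  · exact Or.inr (Or.inr (Or.inl ⟨i - 2 * n, by omega, by omega, by rw [if_pos h3]⟩))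
  rw [if_neg h3]
  by_cases h4 : i < 4 * n
  · exact Or.inr (Or.inr (Or.inr (Or.inl ⟨i - 3 * n, by omega, by omega, by rw [if_pos h4]⟩)))
  rw [if_neg h4]
  exact Or.inr (Or.inr (Or.inr (Or.inr ⟨by omega, rfl⟩)))

theorem key {n : ℕ} (hn : 1 ≤ n) (i j : ℕ) (hij : i < j) (hj : j < 4 * n + 1) :
    15 / 32 ≤ |xn n i - xn n j| ∧ |xn n i - xn n j| ≤ 6 * n := by
  have hn' : (1 : ℝ) ≤ n := by exact_mod_cast hn
  rcases rep (hij.trans hj) with ⟨k, hk, hik, hx⟩ | ⟨k, hk, hik, hx⟩ | ⟨k, hk, hik, hx⟩ |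
    ⟨k, hk, hik, hx⟩ | ⟨hik, hx⟩ <;>
  rcases rep hj with ⟨l, hl, hjl, hy⟩ | ⟨l, hl, hjl, hy⟩ | ⟨l, hl, hjl, hy⟩ |
    ⟨l, hl, hjl, hy⟩ | ⟨hjl, hy⟩ <;>
  first
  | (exfalso; omega)
  | (have h1 : (k : ℝ) + 1 ≤ l := by exact_mod_cast (show k + 1 ≤ l by omega)
     have h2 : (l : ℝ) + 1 ≤ n := by exact_mod_cast hl
     have h3 : (0 : ℝ) ≤ k := Nat.cast_nonneg k
     rw [hx, hy]
     first
     | exact ⟨le_abs.2 (Or.inl (by linarith)), abs_le.2 ⟨by linarith, by linarith⟩⟩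
     | exact ⟨le_abs.2 (Or.inr (by linarith)), abs_le.2 ⟨by linarith, by linarith⟩⟩)
  | (have h1 : (k : ℝ) + 1 ≤ n := by exact_mod_cast hk
     have h2 : (l : ℝ) + 1 ≤ n := by exact_mod_cast hl
     have h3 : (0 : ℝ) ≤ k := Nat.cast_nonneg k
     have h4 : (0 : ℝ) ≤ l := Nat.cast_nonneg l
     rw [hx, hy]
     first
     | exact ⟨le_abs.2 (Or.inl (by linarith)), abs_le.2 ⟨by linarith, by linarith⟩⟩
     | exact ⟨le_abs.2 (Or.inr (by linarith)), abs_le.2 ⟨by linarith, by linarith⟩⟩)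
  | (have h1 : (k : ℝ) + 1 ≤ n := by exact_mod_cast hk
     have h3 : (0 : ℝ) ≤ k := Nat.cast_nonneg k
     rw [hx, hy]
     first
     | exact ⟨le_abs.2 (Or.inl (by linarith)), abs_le.2 ⟨by linarith, by linarith⟩⟩
     | exact ⟨le_abs.2 (Or.inr (by linarith)), abs_le.2 ⟨by linarith, by linarith⟩⟩)

end H858Sep

theorem G3_sep : S_sep := by
  intro n hn i j hi hj hij
  rcases lt_or_gt_of_ne hij with h | h
  · exact H858Sep.key hn i j h hj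
  · rw [abs_sub_comm]
    exact H858Sep.key hn j i h hi

end Pool.Agent.LPB
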